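import Pool.Agent.W966.KronMain

set_option autoImplicit false
set_option linter.unusedSectionVars false

/-!
# Kronecker products with many factors are not rigid

Every Kronecker product of arbitrary square matrices of sizes at most `d`, over every field, gets
rank at most `64 log₂ d * N ^ (1 - γ)`, `γ = δ ^ 2 / (2 ^ 20 (log₂ (4 / δ)) ^ 2 (log₂ d) ^ 3)`,
after a change of at most `N ^ δ` entries in every row and in every column (`N` is the size).
-/

namespace Pool.Agent.Results.MP_0775d3_lc.KroneckerNotRigid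

open Pool.Agent.W966.Kron

universe u

/-- The Kronecker product of square matrices `M 0, …, M (k - 1)`, with rows and columns indexed by
tuples: the entry at `x, y` is `∏ i, M i (x i) (y i)`. -/
def kron {K : Type u} [Field K] {k : ℕ} {n : Fin k → ℕ}
    (M : ∀ i, Matrix (Fin (n i)) (Fin (n i)) K) :
    Matrix (∀ i, Fin (n i)) (∀ i, Fin (n i)) K :=
  Matrix.of fun x y => ∏ i, M i (x i) (y i)

theorem kron_eq {K : Type u} [Field K] {k : ℕ} {n : Fin k → ℕ}
    (M : ∀ i, Matrix (Fin (n i)) (Fin (n i)) K) : kron M = tens M := rfl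

theorem ncard_le {K : Type u} [Field K] {m : Type} [Fintype m] (S : Matrix m m K) (ρ : ℝ)
    (h : ∀ x, (({y | S x y ≠ 0} : Set m).ncard : ℝ) ≤ ρ) :
    (({p : m × m | S p.1 p.2 ≠ 0}.ncard : ℕ) : ℝ) ≤ Fintype.card m * ρ := by
  classical
  have h1 : {p : m × m | S p.1 p.2 ≠ 0}.ncard = ∑ x, ({y | S x y ≠ 0} : Set m).ncard := by
    rw [Set.ncard_eq_toFinset_card', Set.toFinset_ofPred, Finset.card_filter,
      Fintype.sum_prod_type]
    refine Finset.sum_congr rfl fun x _ => ?_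
    rw [Set.ncard_eq_toFinset_card', Set.toFinset_ofPred, Finset.card_filter]
  rw [h1]
  push_cast
  calc ∑ x, ((({y | S x y ≠ 0} : Set m).ncard : ℕ) : ℝ) ≤ ∑ _x : m, ρ :=
        Finset.sum_le_sum fun x _ => h x
    _ = Fintype.card m * ρ := by rw [Finset.sum_const, Finset.card_univ, nsmul_eq_mul]

/-- (1) Let `M 0, …, M (k - 1)` be arbitrary square matrices of sizes at most `d` over a field,
`N` the product of the sizes and `0 < δ ≤ 1`. A change of at most `N ^ δ` entries in every row and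
in every column makes the rank of their Kronecker product at most `64 log₂ d * N ^ (1 - γ)` with
`γ = δ ^ 2 / (2 ^ 20 (log₂ (4 / δ)) ^ 2 (log₂ d) ^ 3)`.
(2) For all `ε, δ > 0` there is `C` such that no such Kronecker product with
`C (log₂ d) ^ 3 (1 + log₂ log₂ d) ≤ log₂ N` is `(ε N, N ^ (1 + δ))`-rigid. -/
theorem result :
    (∀ (K : Type u) [Field K] (k d : ℕ) (n : Fin k → ℕ)
      (M : ∀ i, Matrix (Fin (n i)) (Fin (n i)) K) (N : ℕ) (δ : ℝ), N = ∏ i, n i → 2 ≤ d →
      (∀ i, 0 < n i ∧ n i ≤ d) → 0 < δ → δ ≤ 1 →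
      ∃ S : Matrix (∀ i, Fin (n i)) (∀ i, Fin (n i)) K,
        ((kron M - S).rank : ℝ) ≤ 64 * Real.logb 2 d *
          (N : ℝ) ^ (1 - δ ^ 2 / (2 ^ 20 * Real.logb 2 (4 / δ) ^ 2 * Real.logb 2 d ^ 3)) ∧
        (∀ x, ({y | S x y ≠ 0}.ncard : ℝ) ≤ (N : ℝ) ^ δ) ∧
        (∀ y, ({x | S x y ≠ 0}.ncard : ℝ) ≤ (N : ℝ) ^ δ)) ∧
    (∀ ε δ : ℝ, 0 < ε → 0 < δ → ∃ C : ℝ, ∀ (K : Type u) [Field K] (k d : ℕ) (n : Fin k → ℕ)
      (M : ∀ i, Matrix (Fin (n i)) (Fin (n i)) K) (N : ℕ), N = ∏ i, n i → 2 ≤ d →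
      (∀ i, 0 < n i ∧ n i ≤ d) →
      C * Real.logb 2 d ^ 3 * (1 + Real.logb 2 (Real.logb 2 d)) ≤ Real.logb 2 N →
      ∃ R S : Matrix (∀ i, Fin (n i)) (∀ i, Fin (n i)) K, kron M = R + S ∧
        (R.rank : ℝ) ≤ ε * N ∧
        ({p : (∀ i, Fin (n i)) × (∀ i, Fin (n i)) | S p.1 p.2 ≠ 0}.ncard : ℝ) ≤
          (N : ℝ) ^ (1 + δ)) := by
  refine ⟨?_, ?_⟩
  · intro K _ k d n M N δ hN hd hn hδ0 hδ1
    subst hN
    obtain ⟨S, h1, h2, h3⟩ := kron_main n M d hd hn δ hδ0 hδ1
    exact ⟨S, h1, h2, h3⟩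
  · intro ε δ' hε hδ'
    -- replace `δ` by the minimum with `1`
    set δ := min δ' 1 with hδdef
    have hδ0 : 0 < δ := lt_min hδ' one_pos
    have hδ1 : δ ≤ 1 := min_le_right _ _
    set u := Real.logb 2 (4 / δ) with hu
    have hu0 : 0 < u := by
      apply Real.logb_pos (by norm_num)
      rw [lt_div_iff₀ hδ0]
      linarith
    set a := δ ^ 2 / (2 ^ 20 * u ^ 2) with ha
    have ha0 : 0 < a := by positivity
    set b := 6 + |Real.logb 2 ε| with hb
    have hb0 : 0 < b := by positivity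
    refine ⟨(b + 1) / a, ?_⟩
    intro K _ k d n M N hN hd hn hC
    subst hN
    obtain ⟨S, h1, h2, h3⟩ := kron_main n M d hd hn δ hδ0 hδ1
    set N := ∏ i, n i with hN
    set ℓ := Real.logb 2 d with hℓdef
    have hdR : (2 : ℝ) ≤ d := by exact_mod_cast hd
    have hℓ : 1 ≤ ℓ := by
      rw [hℓdef, Real.le_logb_iff_rpow_le (by norm_num) (by linarith), Real.rpow_one]
      exact hdR
    have hlℓ : 0 ≤ Real.logb 2 ℓ := Real.logb_nonneg (by norm_num) hℓ
    have hN1 : 1 ≤ N := Finset.prod_pos fun i _ => (hn i).1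
    have hN1R : (1 : ℝ) ≤ N := by exact_mod_cast hN1
    have hN0 : (0 : ℝ) < N := by linarith
    have hcard : (Fintype.card (∀ i, Fin (n i)) : ℝ) = N := by
      simp [Fintype.card_pi, hN]
    refine ⟨tens M - S, S, by rw [kron_eq, sub_add_cancel], h1.trans ?_, ?_⟩
    · have hgam : gam δ ℓ = a / ℓ ^ 3 := by
        rw [gam, ha, ← hu]
        field_simp
      have h4 : (b + 1) * (1 + Real.logb 2 ℓ) ≤ gam δ ℓ * Real.logb 2 N := by
        rw [hgam, div_mul_eq_mul_div, le_div_iff₀ (by positivity)]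
        calc (b + 1) * (1 + Real.logb 2 ℓ) * ℓ ^ 3
            = a * ((b + 1) / a * ℓ ^ 3 * (1 + Real.logb 2 ℓ)) := by
              field_simp
          _ ≤ a * Real.logb 2 N := mul_le_mul_of_nonneg_left hC ha0.le
      have h5 : 6 + Real.logb 2 ℓ - Real.logb 2 ε ≤ gam δ ℓ * Real.logb 2 N := by
        refine le_trans ?_ h4
        have h6 := neg_abs_le (Real.logb 2 ε)
        have h7 : b ≤ b * (1 + Real.logb 2 ℓ) := by nlinarith
        nlinarith
      have h6 : 64 * ℓ * (N : ℝ) ^ (-gam δ ℓ) ≤ ε := by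
        have e1 : (64 : ℝ) = 2 ^ (6 : ℝ) := by norm_num
        have e2 : ℓ = 2 ^ Real.logb 2 ℓ :=
          (Real.rpow_logb (by norm_num) (by norm_num) (by linarith)).symm
        have e3 : (N : ℝ) = 2 ^ Real.logb 2 N :=
          (Real.rpow_logb (by norm_num) (by norm_num) hN0).symm
        have e4 : ε = 2 ^ Real.logb 2 ε :=
          (Real.rpow_logb (by norm_num) (by norm_num) hε).symm
        have e5 : (N : ℝ) ^ (-gam δ ℓ) = 2 ^ (-(gam δ ℓ * Real.logb 2 N)) := by
          conv_lhs => rw [e3]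
          rw [← Real.rpow_mul (by norm_num)]
          congr 1
          ring
        calc 64 * ℓ * (N : ℝ) ^ (-gam δ ℓ)
            = 2 ^ (6 : ℝ) * 2 ^ Real.logb 2 ℓ * 2 ^ (-(gam δ ℓ * Real.logb 2 N)) := by
              rw [e5, ← e1, ← e2]
          _ = 2 ^ (6 + Real.logb 2 ℓ + -(gam δ ℓ * Real.logb 2 N)) := by
              rw [Real.rpow_add (by norm_num), Real.rpow_add (by norm_num)]
          _ ≤ 2 ^ Real.logb 2 ε := by
              apply Real.rpow_le_rpow_of_exponent_le (by norm_num)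
              linarith
          _ = ε := e4.symm
      calc 64 * ℓ * (N : ℝ) ^ (1 - gam δ ℓ) = (64 * ℓ * (N : ℝ) ^ (-gam δ ℓ)) * N := by
            rw [sub_eq_add_neg, Real.rpow_add hN0, Real.rpow_one]
            ring
        _ ≤ ε * N := mul_le_mul_of_nonneg_right h6 hN0.le
    · refine (ncard_le S _ h2).trans ?_
      rw [hcard, Real.rpow_add hN0, Real.rpow_one]
      refine mul_le_mul_of_nonneg_left ?_ hN0.le
      exact Real.rpow_le_rpow_of_exponent_le hN1R (min_le_left _ _)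

end Pool.Agent.Results.MP_0775d3_lc.KroneckerNotRigid
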