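import Pool.Agent.W989.RG.Union
import Pool.Agent.W428.RG.CUR

/-!
# Most sparse matrices are rigid, for every support and every field

Among the matrices with a given `d`-regular support and entries from a given finite set `G` of
elements of a field `K`, all but a proportion `|G| ^ (- η n d)` are `(ε n, c n d)`-rigid over `K`,
if `2 ε + c < 1` and `|G| ≥ n ^ κ`; for `G = K` a finite field of any size the same holds with
`c n d` divided by `1 + log n / log |K|`.
-/

set_option autoImplicit false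

namespace Pool.Agent.Results.MP_0775d3_lc.MostSparse

open Finset

/-- the number of nonzero entries of `S` -/
noncomputable def sp {K : Type} [Field K] {n : ℕ} (S : Matrix (Fin n) (Fin n) K) : ℕ :=
  {w : Fin n × Fin n | S w.1 w.2 ≠ 0}.ncard

/-- `A` is `(r, s)`-rigid: it is not the sum of a matrix of rank at most `r` and a matrix with at
most `s` nonzero entries -/
def Rigid {K : Type} [Field K] {n : ℕ} (r s : ℝ) (A : Matrix (Fin n) (Fin n) K) : Prop :=
  ¬ ∃ R S : Matrix (Fin n) (Fin n) K, A = R + S ∧ (R.rank : ℝ) ≤ r ∧ (sp S : ℝ) ≤ s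

/-- the matrices with entries in `G` at the positions of `Ω` and `0` elsewhere -/
def family {K : Type} [Field K] {n : ℕ} (G : Finset K) (Ω : Finset (Fin n × Fin n)) :
    Set (Matrix (Fin n) (Fin n) K) :=
  {A | (∀ i j, (i, j) ∈ Ω → A i j ∈ G) ∧ ∀ i j, (i, j) ∉ Ω → A i j = 0}

/-- every row and every column contains exactly `d` positions of `Ω` -/
def Regular {n : ℕ} (d : ℕ) (Ω : Finset (Fin n × Fin n)) : Prop :=
  (∀ i, (Ω.filter (fun w => w.1 = i)).card = d) ∧ (∀ j, (Ω.filter (fun w => w.2 = j)).card = d)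

open Pool.Agent.W989.RG

theorem family_ncard {K : Type} [Field K] {n : ℕ} (G : Finset K) (Ω : Finset (Fin n × Fin n)) :
    (family G Ω).ncard = G.card ^ Ω.card := by
  classical
  rw [← card_mats G Ω, ← Set.ncard_coe_finset]
  refine Set.ncard_congr (fun A _ => fun p => A p.1 p.2) ?_ ?_ ?_
  · intro A hA
    refine Finset.mem_coe.2 ((mem_mats G Ω _).2 ⟨fun p hp => hA.1 _ _ hp, fun p hp => hA.2 _ _ hp⟩)
  · intro A B _ _ h
    ext i j
    exact congrFun h (i, j)
  · intro f hf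
    have hf := (mem_mats G Ω f).1 (Finset.mem_coe.1 hf)
    exact ⟨Matrix.of (fun i j => f (i, j)), ⟨fun i j h => hf.1 _ h, fun i j h => hf.2 _ h⟩, rfl⟩

theorem ncard_le {K : Type} [Field K] {n r s : ℕ} (x y : ℝ) (hx : ∀ m : ℕ, (m : ℝ) ≤ x → m ≤ r)
    (hy : ∀ m : ℕ, (m : ℝ) ≤ y → m ≤ s) (G : Finset K) (Ω : Finset (Fin n × Fin n)) (b : ℕ)
    (hb : ∀ N : Finset (Fin n × Fin n → K), (∀ f ∈ N, f ∈ mats G Ω ∧ NR r s f) → N.card ≤ b) :
    {A | A ∈ family G Ω ∧ ¬ Rigid x y A}.ncard ≤ b := by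
  classical
  refine le_trans ?_ (hb ((mats G Ω).filter (fun f => NR r s f)) (fun f hf => Finset.mem_filter.1 hf))
  rw [← Set.ncard_coe_finset]
  refine Set.ncard_le_ncard_of_injOn (fun A => fun p => A p.1 p.2) ?_ ?_ (Finset.finite_toSet _)
  · intro A hA
    refine Finset.mem_coe.2 (Finset.mem_filter.2 ⟨(mem_mats G Ω _).2
      ⟨fun p hp => hA.1.1 _ _ hp, fun p hp => hA.1.2 _ _ hp⟩, ?_⟩)
    obtain ⟨R, S, h1, h2, h3⟩ := not_not.1 hA.2
    exact ⟨R, S, h1, hx _ h2, hy _ h3⟩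
  · intro A _ B _ h
    ext i j
    exact congrFun h (i, j)

theorem general_poly (K : Type) [Field K] (n r s v : ℕ) (x y : ℝ)
    (hx : ∀ m : ℕ, (m : ℝ) ≤ x → m ≤ r) (hy : ∀ m : ℕ, (m : ℝ) ≤ y → m ≤ s)
    (G : Finset K) (Ω : Finset (Fin n × Fin n)) (hG : G.Nonempty) (hr : r < n) (hs : s ≤ n * n)
    (hv : ∀ I J : Finset (Fin n), I.card ≤ r → J.card ≤ r →
      (Ω.filter (fun w => w.1 ∈ I ∨ w.2 ∈ J)).card ≤ v) :
    {A | A ∈ family G Ω ∧ ¬ Rigid x y A}.ncard ≤
      n ^ (2 * r + 1 + 2 * s) * (n ^ 3 * G.card) ^ (v + s) := by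
  have hG1 : 1 ≤ G.card := hG.card_pos
  have hn3 : 1 ≤ n ^ 3 := Nat.one_le_pow _ _ (by omega)
  refine ncard_le x y hx hy G Ω _ (fun N hN => ?_)
  refine count_union (s := s) (v := v) Pool.Agent.W428.RG.t_CUR hr hs G Ω
    (Nat.mul_pos hn3 hG1) (Nat.le_mul_of_pos_left _ hn3) ?_ hv N hN
  intro ρ hρ T I J X hXG hX
  refine le_trans (count_poly Ω T I J G X hXG hX) (Nat.pow_le_pow_left ?_ _)
  have hW : (Ω \ T).card ≤ n * n := by
    refine le_trans (Finset.card_le_univ _) ?_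
    simp
  obtain ⟨q, hq⟩ : ∃ q, G.card = q + 1 := ⟨G.card - 1, by omega⟩
  rw [hq, Nat.add_sub_cancel]
  calc (ρ + 1) * (q * (Ω \ T).card) + 1 ≤ n * (q * (n * n)) + 1 := by
        gcongr
        omega
    _ ≤ n * (q * (n * n)) + n ^ 3 := by omega
    _ = n ^ 3 * (q + 1) := by ring

theorem general_finite (K : Type) [Field K] [Fintype K] (n r s v : ℕ) (x y : ℝ)
    (hx : ∀ m : ℕ, (m : ℝ) ≤ x → m ≤ r) (hy : ∀ m : ℕ, (m : ℝ) ≤ y → m ≤ s)
    (G : Finset K) (Ω : Finset (Fin n × Fin n)) (hr : r < n) (hs : s ≤ n * n)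
    (hv : ∀ I J : Finset (Fin n), I.card ≤ r → J.card ≤ r →
      (Ω.filter (fun w => w.1 ∈ I ∨ w.2 ∈ J)).card ≤ v) :
    {A | A ∈ family G Ω ∧ ¬ Rigid x y A}.ncard ≤
      n ^ (2 * r + 1 + 2 * s) * (Fintype.card K) ^ (v + s) := by
  refine ncard_le x y hx hy G Ω _ (fun N hN => ?_)
  refine count_union (s := s) (v := v) Pool.Agent.W428.RG.t_CUR hr hs G Ω
    Fintype.card_pos (Finset.card_le_univ _) ?_ hv N hN
  intro ρ hρ T I J X _ hX
  exact count_finite Ω T I J X hX

theorem card_lines {n : ℕ} (Ω : Finset (Fin n × Fin n)) (d r : ℕ) (hΩ : Regular d Ω)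
    (I J : Finset (Fin n)) (hI : I.card ≤ r) (hJ : J.card ≤ r) :
    (Ω.filter (fun w => w.1 ∈ I ∨ w.2 ∈ J)).card ≤ 2 * r * d := by
  classical
  have hsub : Ω.filter (fun w => w.1 ∈ I ∨ w.2 ∈ J) ⊆
      (I.biUnion fun i => Ω.filter (fun w => w.1 = i)) ∪
        (J.biUnion fun j => Ω.filter (fun w => w.2 = j)) := by
    intro w hw
    rw [Finset.mem_filter] at hw
    rw [Finset.mem_union, Finset.mem_biUnion, Finset.mem_biUnion]
    rcases hw.2 with h | h
    · exact Or.inl ⟨w.1, h, Finset.mem_filter.2 ⟨hw.1, rfl⟩⟩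
    · exact Or.inr ⟨w.2, h, Finset.mem_filter.2 ⟨hw.1, rfl⟩⟩
  have h1 : (I.biUnion fun i => Ω.filter (fun w => w.1 = i)).card ≤ I.card * d := by
    refine le_trans Finset.card_biUnion_le ?_
    rw [Finset.sum_congr rfl (fun i _ => hΩ.1 i), Finset.sum_const, smul_eq_mul]
  have h2 : (J.biUnion fun j => Ω.filter (fun w => w.2 = j)).card ≤ J.card * d := by
    refine le_trans Finset.card_biUnion_le ?_
    rw [Finset.sum_congr rfl (fun j _ => hΩ.2 j), Finset.sum_const, smul_eq_mul]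
  calc _ ≤ _ := le_trans (Finset.card_le_card hsub) (Finset.card_union_le _ _)
    _ ≤ I.card * d + J.card * d := Nat.add_le_add h1 h2
    _ ≤ r * d + r * d := by gcongr
    _ = 2 * r * d := by ring

theorem card_regular {n : ℕ} (Ω : Finset (Fin n × Fin n)) (d : ℕ) (hΩ : Regular d Ω) :
    Ω.card = n * d := by
  classical
  rw [Finset.card_eq_sum_card_fiberwise (f := fun w => w.1) (t := univ) (fun _ _ => Finset.mem_univ _)]
  rw [Finset.sum_congr rfl (fun i _ => hΩ.1 i), Finset.sum_const, smul_eq_mul, Finset.card_univ,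
    Fintype.card_fin]

theorem d_le {n : ℕ} (Ω : Finset (Fin n × Fin n)) (d : ℕ) (hn : 1 ≤ n) (hΩ : Regular d Ω) :
    d ≤ n := by
  have h1 := card_regular Ω d hΩ
  have h2 : Ω.card ≤ n * n := by
    refine le_trans (Finset.card_le_univ _) ?_
    simp
  rw [h1] at h2
  exact Nat.le_of_mul_le_mul_left h2 (by omega)

theorem regular_large (ε c : ℝ) (hε : 0 ≤ ε) (hc : 0 ≤ c) (h : 2 * ε + c < 1) :
    ∃ (κ : ℕ) (η : ℝ), 0 < η ∧ ∀ (K : Type) [Field K] (n d : ℕ) (Ω : Finset (Fin n × Fin n))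
      (G : Finset K), 2 ≤ n → 1 ≤ d → Regular d Ω → n ^ κ ≤ G.card →
      ({A | A ∈ family G Ω ∧ ¬ Rigid (ε * n) (c * (n * d)) A}.ncard : ℝ) ≤
        (G.card : ℝ) ^ ((1 - η) * (n * d)) := by
  set x := 2 * ε + c with hxdef
  obtain ⟨κ, hκ⟩ := exists_nat_gt (14 / (1 - x))
  have hx1 : 0 < 1 - x := by linarith
  have hκ0 : (0 : ℝ) < κ := lt_trans (by positivity) hκ
  have hκ1 : 14 < κ * (1 - x) := by rwa [div_lt_iff₀ hx1] at hκ
  refine ⟨κ, (1 - x) / 2, by linarith, ?_⟩
  intro K _ n d Ω G hn hd hΩ hG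
  have hnR : (2 : ℝ) ≤ n := by exact_mod_cast hn
  have hdR : (1 : ℝ) ≤ d := by exact_mod_cast hd
  have hG1 : 1 ≤ G.card := le_trans (Nat.one_le_pow _ _ (by omega)) hG
  have hr1 : ((⌊ε * n⌋₊ : ℕ) : ℝ) ≤ ε * n := Nat.floor_le (by positivity)
  have hs1 : ((⌊c * (n * d)⌋₊ : ℕ) : ℝ) ≤ c * (n * d) := Nat.floor_le (by positivity)
  set r := ⌊ε * n⌋₊ with hr
  set s := ⌊c * (n * d)⌋₊ with hs
  have hrn : r < n := by
    have : (r : ℝ) < n := by nlinarith
    exact_mod_cast this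
  have hdn := d_le Ω d (by omega) hΩ
  have hsn : s ≤ n * n := by
    have hdn' : (d : ℝ) ≤ n := by exact_mod_cast hdn
    have : (s : ℝ) ≤ n * n := by
      refine le_trans hs1 ?_
      have h1 : (n : ℝ) * d ≤ n * n := by gcongr
      have h2 : c ≤ 1 := by linarith
      nlinarith
    exact_mod_cast this
  have hmain := general_poly K n r s (2 * r * d) (ε * n) (c * (n * d))
    (fun m hm => Nat.le_floor hm) (fun m hm => Nat.le_floor hm) G Ω
    (Finset.card_pos.1 hG1) hrn hsn (card_lines Ω d r hΩ)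
  have hmain' : ({A | A ∈ family G Ω ∧ ¬ Rigid (ε * n) (c * (n * d)) A}.ncard : ℝ) ≤
      (n : ℝ) ^ (2 * r + 1 + 2 * s) * ((n : ℝ) ^ 3 * G.card) ^ (2 * r * d + s) := by
    exact_mod_cast hmain
  refine le_trans hmain' ?_
  have hGR : (0 : ℝ) < G.card := by exact_mod_cast hG1
  have hn0 : (0 : ℝ) < n := by linarith
  rw [← Real.log_le_log_iff (by positivity) (by positivity), Real.log_mul (by positivity) (by positivity),
    Real.log_pow, Real.log_pow, Real.log_mul (by positivity) (by positivity), Real.log_pow,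
    Real.log_rpow hGR]
  have hL : 0 ≤ Real.log n := Real.log_natCast_nonneg n
  have hLG : κ * Real.log n ≤ Real.log G.card := by
    have h1 : Real.log ((n : ℝ) ^ κ) ≤ Real.log G.card :=
      Real.log_le_log (by positivity) (by exact_mod_cast hG)
    rwa [Real.log_pow] at h1
  set L := Real.log n with hLdef
  set l := Real.log G.card with hldef
  push_cast
  have hnd : (1 : ℝ) ≤ n * d := by nlinarith
  have hnd2 : (n : ℝ) ≤ n * d := by nlinarith
  have hl0 : 0 ≤ l := le_trans (by positivity) hLG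
  -- the exponent
  have e1 : (2 * (r : ℝ) + 1 + 2 * s) * L ≤ 4 * (n * d) * L := by
    refine mul_le_mul_of_nonneg_right ?_ hL
    have h1 : 2 * (r : ℝ) ≤ n := by nlinarith
    have h2 : (s : ℝ) ≤ n * d := by nlinarith
    linarith
  have e2 : 2 * (r : ℝ) * d + s ≤ x * (n * d) := by
    have h1 : (r : ℝ) * d ≤ ε * n * d := by gcongr
    rw [hxdef]
    nlinarith
  have e3 : (2 * (r : ℝ) * d + s) * (3 * L + l) ≤ x * (n * d) * (3 * L + l) :=
    mul_le_mul_of_nonneg_right e2 (by positivity)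
  have hx0 : 0 ≤ x := by positivity
  have e4 : x * (n * d) * (3 * L) ≤ 3 * (n * d) * L := by
    have h1 : 0 ≤ (n : ℝ) * d * L := by positivity
    nlinarith
  have e5 : 7 * ((n : ℝ) * d) * L ≤ (1 - x) / 2 * (n * d) * l := by
    have h1 : 14 * L ≤ (1 - x) * l := by
      have h2 : 14 * L ≤ κ * (1 - x) * L := by nlinarith
      have h3 : (1 - x) * (κ * L) ≤ (1 - x) * l := mul_le_mul_of_nonneg_left hLG hx1.le
      nlinarith
    have h4 : 0 ≤ (n : ℝ) * d := by positivity
    nlinarith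
  have e6 : (3 : ℝ) * L = 3 * L := rfl
  nlinarith

theorem finite_field (ε : ℝ) (hε : 0 ≤ ε) (h : ε < 1 / 2) :
    ∃ c η : ℝ, 0 < c ∧ 0 < η ∧ ∀ (K : Type) [Field K] [Fintype K] (n d : ℕ)
      (Ω : Finset (Fin n × Fin n)), 1 ≤ n → Regular d Ω →
      Real.log n ≤ c * d * Real.log (Fintype.card K) →
      ({A : Matrix (Fin n) (Fin n) K | A ∈ family univ Ω ∧ ¬ Rigid (ε * n)
          (c * (n * d) / (1 + Real.log n / Real.log (Fintype.card K))) A}.ncard : ℝ) ≤
        (Fintype.card K : ℝ) ^ ((1 - η) * (n * d)) := by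
  refine ⟨(1 - 2 * ε) / 8, (1 - 2 * ε) / 2, by linarith, by linarith, ?_⟩
  set c : ℝ := (1 - 2 * ε) / 8 with hcdef
  have hc0 : 0 < c := by rw [hcdef]; linarith
  have hc1 : c ≤ 1 / 8 := by rw [hcdef]; linarith
  intro K _ _ n d Ω hn hΩ hlog
  have hnR : (1 : ℝ) ≤ n := by exact_mod_cast hn
  have hdR : (0 : ℝ) ≤ d := Nat.cast_nonneg d
  have hq : 1 < Fintype.card K := Fintype.one_lt_card
  have hqR : (1 : ℝ) < Fintype.card K := by exact_mod_cast hq
  have hl : 0 < Real.log (Fintype.card K) := Real.log_pos hqR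
  have hL : 0 ≤ Real.log n := Real.log_natCast_nonneg n
  set L := Real.log n with hLdef
  set l := Real.log (Fintype.card K) with hldef
  have hden : 0 < 1 + L / l := by positivity
  set y : ℝ := c * (n * d) / (1 + L / l) with hy
  have hy0 : 0 ≤ y := by positivity
  have hyl : y * (l + L) = c * (n * d) * l := by
    rw [hy]
    field_simp
  have hr1 : ((⌊ε * n⌋₊ : ℕ) : ℝ) ≤ ε * n := Nat.floor_le (by positivity)
  have hs1 : ((⌊y⌋₊ : ℕ) : ℝ) ≤ y := Nat.floor_le hy0
  set r := ⌊ε * n⌋₊ with hr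
  set s := ⌊y⌋₊ with hs
  have hrn : r < n := by
    have : (r : ℝ) < n := by nlinarith
    exact_mod_cast this
  have hdn := d_le Ω d (by omega) hΩ
  have hyn : y ≤ c * (n * d) := by
    have h1 : 0 ≤ y * L := by positivity
    have h2 : y * l ≤ c * (n * d) * l := by linarith [hyl, mul_add y l L]
    exact le_of_mul_le_mul_right h2 hl
  have hsn : s ≤ n * n := by
    have hdn' : (d : ℝ) ≤ n := by exact_mod_cast hdn
    have : (s : ℝ) ≤ n * n := by
      refine le_trans hs1 (le_trans hyn ?_)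
      have h1 : (n : ℝ) * d ≤ n * n := by gcongr
      have h2 : 0 ≤ (n : ℝ) * d := by positivity
      nlinarith
    exact_mod_cast this
  have hmain := general_finite K n r s (2 * r * d) (ε * n) y
    (fun m hm => Nat.le_floor hm) (fun m hm => Nat.le_floor hm) univ Ω
    hrn hsn (card_lines Ω d r hΩ)
  have hmain' : ({A : Matrix (Fin n) (Fin n) K | A ∈ family univ Ω ∧
      ¬ Rigid (ε * n) y A}.ncard : ℝ) ≤
      (n : ℝ) ^ (2 * r + 1 + 2 * s) * (Fintype.card K : ℝ) ^ (2 * r * d + s) := by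
    exact_mod_cast hmain
  refine le_trans hmain' ?_
  have hq0 : (0 : ℝ) < Fintype.card K := by linarith
  have hn0 : (0 : ℝ) < n := by linarith
  rw [← Real.log_le_log_iff (by positivity) (by positivity), Real.log_mul (by positivity) (by positivity),
    Real.log_pow, Real.log_pow, Real.log_rpow hq0, ← hLdef, ← hldef]
  push_cast
  have hrd : (r : ℝ) * d ≤ ε * n * d := by gcongr
  have e1 : (2 * (r : ℝ) + 1) * L ≤ 2 * n * (c * d * l) := by
    have h1 : 2 * (r : ℝ) + 1 ≤ 2 * n := by nlinarith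
    exact mul_le_mul h1 hlog hL (by positivity)
  have e2 : (s : ℝ) * (2 * L + l) ≤ 2 * (c * (n * d) * l) := by
    calc (s : ℝ) * (2 * L + l) ≤ y * (2 * L + l) := by gcongr
      _ ≤ y * (2 * (l + L)) := by
          refine mul_le_mul_of_nonneg_left ?_ hy0
          linarith
      _ = 2 * (c * (n * d) * l) := by rw [← hyl]; ring
  have e3 : 2 * (r : ℝ) * d * l ≤ 2 * ε * (n * d) * l := by
    have : 0 ≤ l := hl.le
    nlinarith
  have e4 : 4 * c = (1 - 2 * ε) / 2 := by rw [hcdef]; ring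
  calc (2 * (r : ℝ) + 1 + 2 * s) * L + (2 * r * d + s) * l =
        (2 * (r : ℝ) + 1) * L + (s : ℝ) * (2 * L + l) + 2 * (r : ℝ) * d * l := by ring
    _ ≤ 2 * n * (c * d * l) + 2 * (c * (n * d) * l) + 2 * ε * (n * d) * l := by linarith
    _ = (4 * c + 2 * ε) * (n * d) * l := by ring
    _ = (1 - (1 - 2 * ε) / 2) * (n * d) * l := by rw [e4]; ring

/-- **Most sparse matrices are rigid, for every support and every field.**
(1) There are `|G| ^ |Ω|` matrices with entries in `G` at the positions of `Ω` and `0` elsewhere.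
If `r` rows and `r` columns never contain more than `v` positions of `Ω` and `r < n`, `s ≤ n ^ 2`,
then at most `n ^ (2 r + 1 + 2 s) (n ^ 3 |G|) ^ (v + s)` of them are not `(r, s)`-rigid over `K`, and
for a finite field `K` at most `n ^ (2 r + 1 + 2 s) |K| ^ (v + s)`.
(2) If `2 ε + c < 1` there are `κ` and `η > 0` such that for every field `K`, every finite set
`G` of at least `n ^ κ` elements of `K` and every `d`-regular support all but at most
`|G| ^ ((1 - η) n d)` of the `|G| ^ (n d)` matrices are `(ε n, c n d)`-rigid over `K`.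
(3) If `ε < 1 / 2` there are `c, η > 0` such that for every finite field `K` and every
`d`-regular support with `log n ≤ c d log |K|` all but at most `|K| ^ ((1 - η) n d)` of the
`|K| ^ (n d)` matrices with this support are `(ε n, c n d / (1 + log n / log |K|))`-rigid. -/
theorem result :
    (∀ (K : Type) [Field K] (n r s v : ℕ) (G : Finset K) (Ω : Finset (Fin n × Fin n)),
      G.Nonempty → r < n → s ≤ n * n →
      (∀ I J : Finset (Fin n), I.card ≤ r → J.card ≤ r →
        (Ω.filter (fun w => w.1 ∈ I ∨ w.2 ∈ J)).card ≤ v) →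
      (family G Ω).ncard = G.card ^ Ω.card ∧
      {A | A ∈ family G Ω ∧ ¬ Rigid r s A}.ncard ≤
        n ^ (2 * r + 1 + 2 * s) * (n ^ 3 * G.card) ^ (v + s) ∧
      (Finite K → {A | A ∈ family G Ω ∧ ¬ Rigid r s A}.ncard ≤
        n ^ (2 * r + 1 + 2 * s) * (Nat.card K) ^ (v + s))) ∧
    (∀ ε c : ℝ, 0 ≤ ε → 0 ≤ c → 2 * ε + c < 1 →
      ∃ (κ : ℕ) (η : ℝ), 0 < η ∧ ∀ (K : Type) [Field K] (n d : ℕ) (Ω : Finset (Fin n × Fin n))
        (G : Finset K), 2 ≤ n → 1 ≤ d → Regular d Ω → n ^ κ ≤ G.card →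
        ({A | A ∈ family G Ω ∧ ¬ Rigid (ε * n) (c * (n * d)) A}.ncard : ℝ) ≤
          (G.card : ℝ) ^ ((1 - η) * (n * d))) ∧
    (∀ ε : ℝ, 0 ≤ ε → ε < 1 / 2 →
      ∃ c η : ℝ, 0 < c ∧ 0 < η ∧ ∀ (K : Type) [Field K] [Fintype K] (n d : ℕ)
        (Ω : Finset (Fin n × Fin n)), 1 ≤ n → Regular d Ω →
        Real.log n ≤ c * d * Real.log (Fintype.card K) →
        ({A : Matrix (Fin n) (Fin n) K | A ∈ family univ Ω ∧ ¬ Rigid (ε * n)
            (c * (n * d) / (1 + Real.log n / Real.log (Fintype.card K))) A}.ncard : ℝ) ≤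
          (Fintype.card K : ℝ) ^ ((1 - η) * (n * d))) := by
  refine ⟨?_, regular_large, finite_field⟩
  intro K _ n r s v G Ω hG hr hs hv
  refine ⟨family_ncard G Ω, ?_, fun hfin => ?_⟩
  · exact general_poly K n r s v r s (fun m hm => by exact_mod_cast hm)
      (fun m hm => by exact_mod_cast hm) G Ω hG hr hs hv
  · have : Fintype K := Fintype.ofFinite K
    rw [Nat.card_eq_fintype_card]
    exact general_finite K n r s v r s (fun m hm => by exact_mod_cast hm)
      (fun m hm => by exact_mod_cast hm) G Ω hr hs hv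

end Pool.Agent.Results.MP_0775d3_lc.MostSparse
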