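import Pool.Agent.W989.RG.Main
import Pool.Agent.W989.RG.Data
import Pool.Agent.W584.RG.TI
import Pool.Agent.W428.RG.CUR

/-!
# Matrices of radicals are rigid, for every support

The entries at the positions of a support `Ω` are `m`-th roots of different primes, the others are
`0`. For `m` a fixed power of `n` such a matrix is `(ε n, c n d)`-rigid for all `2 ε + c < 1` when
`Ω` is `d`-regular (every `d`), and `(ε n, c n ^ 2)`-rigid for all `c < (1 - ε) ^ 2` when `Ω` is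
everything.
-/

set_option autoImplicit false

namespace Pool.Agent.Results.MP_0775d3_lc.SparseRadicals

open Finset Filter

/-- the number of nonzero entries of `S` -/
noncomputable def sp {K : Type} [Field K] {n : ℕ} (S : Matrix (Fin n) (Fin n) K) : ℕ :=
  {w : Fin n × Fin n | S w.1 w.2 ≠ 0}.ncard

/-- `A` is `(r, s)`-rigid: it is not the sum of a matrix of rank at most `r` and a matrix with at
most `s` nonzero entries -/
def Rigid {K : Type} [Field K] {n : ℕ} (r s : ℝ) (A : Matrix (Fin n) (Fin n) K) : Prop :=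
  ¬ ∃ R S : Matrix (Fin n) (Fin n) K, A = R + S ∧ (R.rank : ℝ) ≤ r ∧ (sp S : ℝ) ≤ s

/-- The entry at a position `(i, j)` of the support `Ω` is the real number `q ^ (1 / m)`, where `q`
is the prime number with index `i n + j` (the prime `2` has index `0`); the other entries are `0`. -/
noncomputable def rad {n : ℕ} (m : ℕ) (Ω : Finset (Fin n × Fin n)) : Matrix (Fin n) (Fin n) ℝ :=
  Matrix.of fun i j =>
    if (i, j) ∈ Ω then (Nat.nth Nat.Prime ((i : ℕ) * n + j) : ℝ) ^ (1 / (m : ℝ)) else 0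

/-- every row and every column contains exactly `d` positions of `Ω` -/
def Regular {n : ℕ} (d : ℕ) (Ω : Finset (Fin n × Fin n)) : Prop :=
  (∀ i, (Ω.filter (fun w => w.1 = i)).card = d) ∧ (∀ j, (Ω.filter (fun w => w.2 = j)).card = d)

/-- the cyclic band of width `d`: the positions `(i, j)` with `j - i mod n` in `{0, …, d - 1}` -/
def band (n d : ℕ) : Finset (Fin n × Fin n) :=
  univ.filter (fun w => ((w.2 : ℕ) + n - (w.1 : ℕ)) % n < d)

/-- every support, with explicit constants -/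
theorem general (K : Type) [Field K] (φ : ℝ →+* K) (n m r s v : ℕ) (Ω : Finset (Fin n × Fin n))
    (hv : ∀ I J : Finset (Fin n), I.card ≤ r → J.card ≤ r →
      (Ω.filter (fun w => w.1 ∈ I ∨ w.2 ∈ J)).card ≤ v)
    (h : (3 * Real.log n + Real.log m) * ((v : ℝ) + s) < Real.log m * Ω.card) :
    Rigid r s ((rad m Ω).map φ) := by
  classical
  rintro ⟨R, S, hRS, hr, hs⟩
  have hr' : R.rank ≤ r := by exact_mod_cast hr
  have hs' : sp S ≤ s := by exact_mod_cast hs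
  refine Pool.Agent.W989.RG.main Pool.Agent.W584.RG.t_TI Pool.Agent.W428.RG.t_CUR φ Ω
    (fun w => Nat.nth Nat.Prime ((w.1 : ℕ) * n + w.2)) ?_ ?_ hv h ((rad m Ω).map φ) R S ?_ ?_ hRS hr'
    (univ.filter (fun w => S w.1 w.2 ≠ 0)) ?_ ?_
  · intro w _
    exact Nat.prime_nth_prime _
  · intro w _ w' _ hww
    have h1 := Nat.nth_injective Nat.infinite_setOfPred_prime hww
    have h2 := w.2.2
    have h3 := w'.2.2
    have h4 : (w.1 : ℕ) = w'.1 := by
      have e1 : ((w.1 : ℕ) * n + w.2) / n = w.1 := by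
        rw [Nat.mul_comm, Nat.mul_add_div (by omega), Nat.div_eq_of_lt h2, add_zero]
      have e2 : ((w'.1 : ℕ) * n + w'.2) / n = w'.1 := by
        rw [Nat.mul_comm, Nat.mul_add_div (by omega), Nat.div_eq_of_lt h3, add_zero]
      rw [← e1, ← e2]
      exact congrArg (· / n) h1
    have h5 : (w.2 : ℕ) = w'.2 := by
      have h6 : (w.1 : ℕ) * n + w.2 = (w'.1 : ℕ) * n + w'.2 := h1
      rw [h4] at h6
      omega
    exact Prod.ext (Fin.ext h4) (Fin.ext h5)
  · intro w hw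
    simp [rad, hw]
  · intro w hw
    simp [rad, hw]
  · intro w hw
    by_contra h0
    exact hw (Finset.mem_filter.2 ⟨Finset.mem_univ _, h0⟩)
  · refine le_trans (le_of_eq ?_) hs'
    unfold sp
    rw [Set.ncard_eq_toFinset_card']
    congr 1
    ext w
    simp

theorem exists_kappa (x : ℝ) (hx : x < 1) : ∃ κ : ℕ, ((κ : ℝ) + 3) * x < κ := by
  obtain ⟨κ, hκ⟩ := exists_nat_gt (3 * x / (1 - x))
  refine ⟨κ, ?_⟩
  have h1 : 0 < 1 - x := by linarith
  rw [div_lt_iff₀ h1] at hκ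
  nlinarith

/-- the general statement for real parameters and `m = n ^ κ` -/
theorem general_kappa (K : Type) [Field K] (φ : ℝ →+* K) (n κ : ℕ) (r s v : ℝ)
    (Ω : Finset (Fin n × Fin n)) (hn : 2 ≤ n)
    (hv : ∀ I J : Finset (Fin n), (I.card : ℝ) ≤ r → (J.card : ℝ) ≤ r →
      ((Ω.filter (fun w => w.1 ∈ I ∨ w.2 ∈ J)).card : ℝ) ≤ v)
    (h : ((κ : ℝ) + 3) * (v + s) < κ * Ω.card) :
    Rigid r s ((rad (n ^ κ) Ω).map φ) := by
  classical
  rintro ⟨R, S, hRS, hr, hs⟩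
  have hv0 : 0 ≤ v := by
    refine le_trans (Nat.cast_nonneg _) (hv ∅ ∅ ?_ ?_)
    · simpa using le_trans (Nat.cast_nonneg _) hr
    · simpa using le_trans (Nat.cast_nonneg _) hr
  have hlog : 0 < Real.log n := Real.log_pos (by exact_mod_cast (by omega : 1 < n))
  refine general K φ n (n ^ κ) R.rank (sp S) ⌊v⌋₊ Ω ?_ ?_ ⟨R, S, hRS, le_refl _, le_refl _⟩
  · intro I J hI hJ
    refine Nat.le_floor (hv I J ?_ ?_)
    · exact le_trans (by exact_mod_cast hI) hr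
    · exact le_trans (by exact_mod_cast hJ) hr
  · have h1 : (⌊v⌋₊ : ℝ) ≤ v := Nat.floor_le hv0
    push_cast
    rw [Real.log_pow]
    calc (3 * Real.log n + (κ : ℝ) * Real.log n) * ((⌊v⌋₊ : ℝ) + sp S) ≤
        (3 * Real.log n + (κ : ℝ) * Real.log n) * (v + s) := by gcongr
      _ = Real.log n * (((κ : ℝ) + 3) * (v + s)) := by ring
      _ < Real.log n * (κ * Ω.card) := by gcongr
      _ = _ := by ring

theorem card_lines {n : ℕ} (Ω : Finset (Fin n × Fin n)) (d : ℕ) (hΩ : Regular d Ω)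
    (I J : Finset (Fin n)) :
    (Ω.filter (fun w => w.1 ∈ I ∨ w.2 ∈ J)).card ≤ I.card * d + J.card * d := by
  classical
  have hsub : Ω.filter (fun w => w.1 ∈ I ∨ w.2 ∈ J) ⊆
      (I.biUnion fun i => Ω.filter (fun w => w.1 = i)) ∪
        (J.biUnion fun j => Ω.filter (fun w => w.2 = j)) := by
    intro w hw
    rw [Finset.mem_filter] at hw
    rw [Finset.mem_union, Finset.mem_biUnion, Finset.mem_biUnion]
    rcases hw.2 with h | h
    · exact Or.inl ⟨w.1, h, Finset.mem_filter.2 ⟨hw.1, rfl⟩⟩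
    · exact Or.inr ⟨w.2, h, Finset.mem_filter.2 ⟨hw.1, rfl⟩⟩
  refine le_trans (Finset.card_le_card hsub) (le_trans (Finset.card_union_le _ _) ?_)
  refine Nat.add_le_add ?_ ?_
  · refine le_trans Finset.card_biUnion_le ?_
    rw [Finset.sum_congr rfl (fun i _ => hΩ.1 i), Finset.sum_const, smul_eq_mul]
  · refine le_trans Finset.card_biUnion_le ?_
    rw [Finset.sum_congr rfl (fun j _ => hΩ.2 j), Finset.sum_const, smul_eq_mul]

theorem card_regular {n : ℕ} (Ω : Finset (Fin n × Fin n)) (d : ℕ) (hΩ : Regular d Ω) :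
    Ω.card = n * d := by
  classical
  rw [Finset.card_eq_sum_card_fiberwise (f := fun w => w.1) (t := univ) (fun _ _ => Finset.mem_univ _)]
  rw [Finset.sum_congr rfl (fun i _ => hΩ.1 i), Finset.sum_const, smul_eq_mul, Finset.card_univ,
    Fintype.card_fin]

theorem regular (ε c : ℝ) (h : 2 * ε + c < 1) :
    ∃ κ : ℕ, ∀ (K : Type) [Field K] (φ : ℝ →+* K) (n d : ℕ) (Ω : Finset (Fin n × Fin n)),
      2 ≤ n → 1 ≤ d → Regular d Ω → Rigid (ε * n) (c * (n * d)) ((rad (n ^ κ) Ω).map φ) := by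
  obtain ⟨κ, hκ⟩ := exists_kappa (2 * ε + c) h
  refine ⟨κ, ?_⟩
  intro K _ φ n d Ω hn hd hΩ
  have hnR : (0 : ℝ) < n := by exact_mod_cast (by omega : 0 < n)
  have hdR : (0 : ℝ) < d := by exact_mod_cast (by omega : 0 < d)
  refine general_kappa K φ n κ _ _ (2 * (ε * n) * d) Ω hn ?_ ?_
  · intro I J hI hJ
    have h1 := card_lines Ω d hΩ I J
    have h2 : ((Ω.filter (fun w => w.1 ∈ I ∨ w.2 ∈ J)).card : ℝ) ≤ I.card * d + J.card * d := by
      exact_mod_cast h1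
    nlinarith
  · rw [card_regular Ω d hΩ]
    push_cast
    have h3 : ((κ : ℝ) + 3) * (2 * ε + c) * ((n : ℝ) * d) < κ * ((n : ℝ) * d) :=
      mul_lt_mul_of_pos_right hκ (by positivity)
    nlinarith

theorem dense (ε c : ℝ) (hε1 : ε ≤ 1) (h : c < (1 - ε) ^ 2) :
    ∃ κ : ℕ, ∀ (K : Type) [Field K] (φ : ℝ →+* K) (n : ℕ), 2 ≤ n →
      Rigid (ε * n) (c * (n : ℝ) ^ 2) ((rad (n ^ κ) (univ : Finset (Fin n × Fin n))).map φ) := by
  obtain ⟨κ, hκ⟩ := exists_kappa (1 - (1 - ε) ^ 2 + c) (by linarith)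
  refine ⟨κ, ?_⟩
  intro K _ φ n hn
  classical
  have hnR : (0 : ℝ) < n := by exact_mod_cast (by omega : 0 < n)
  refine general_kappa K φ n κ _ _ ((1 - (1 - ε) ^ 2) * (n : ℝ) ^ 2) univ hn ?_ ?_
  · intro I J hI hJ
    have h1 : (univ.filter (fun w : Fin n × Fin n => w.1 ∈ I ∨ w.2 ∈ J)).card +
        (Iᶜ ×ˢ Jᶜ).card = n * n := by
      have h2 : (Iᶜ ×ˢ Jᶜ) = univ.filter (fun w : Fin n × Fin n => ¬ (w.1 ∈ I ∨ w.2 ∈ J)) := by
        ext w
        simp [not_or]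
      rw [h2, Finset.card_filter_add_card_filter_not]
      simp
    rw [Finset.card_product, Finset.card_compl, Finset.card_compl, Fintype.card_fin] at h1
    have hIn : I.card ≤ n := by simpa using Finset.card_le_univ I
    have hJn : J.card ≤ n := by simpa using Finset.card_le_univ J
    have h3 : ((univ.filter (fun w : Fin n × Fin n => w.1 ∈ I ∨ w.2 ∈ J)).card : ℝ) +
        ((n : ℝ) - I.card) * ((n : ℝ) - J.card) = (n : ℝ) * n := by
      rw [← Nat.cast_sub hIn, ← Nat.cast_sub hJn]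
      exact_mod_cast h1
    have h4 : (1 - ε) * n ≤ (n : ℝ) - I.card := by linarith
    have h5 : (1 - ε) * n ≤ (n : ℝ) - J.card := by linarith
    have h6 : 0 ≤ (1 - ε) * (n : ℝ) := by
      have : 0 ≤ 1 - ε := by linarith
      positivity
    have h7 : ((1 - ε) * n) * ((1 - ε) * n) ≤ ((n : ℝ) - I.card) * ((n : ℝ) - J.card) :=
      mul_le_mul h4 h5 h6 (le_trans h6 h4)
    nlinarith
  · have h8 : ((univ : Finset (Fin n × Fin n)).card : ℝ) = (n : ℝ) ^ 2 := by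
      rw [Finset.card_univ, Fintype.card_prod, Fintype.card_fin]
      push_cast
      ring
    rw [h8]
    have h3 : ((κ : ℝ) + 3) * (1 - (1 - ε) ^ 2 + c) * ((n : ℝ) ^ 2) < κ * ((n : ℝ) ^ 2) :=
      mul_lt_mul_of_pos_right hκ (by positivity)
    nlinarith

theorem mem_band (n d : ℕ) [NeZero n] (w : Fin n × Fin n) :
    w ∈ band n d ↔ ((w.2 - w.1 : Fin n) : ℕ) < d := by
  have h : ((w.2 : ℕ) + n - (w.1 : ℕ)) = n - (w.1 : ℕ) + w.2 := by
    have := w.1.2
    omega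
  simp only [band, Finset.mem_filter, Finset.mem_univ, true_and, Fin.sub_def, h]

theorem card_lt (n d : ℕ) (h : d ≤ n) : (univ.filter (fun k : Fin n => (k : ℕ) < d)).card = d := by
  have h1 : (univ.filter (fun k : Fin n => (k : ℕ) < d)).image Fin.val = Finset.range d := by
    ext x
    simp only [Finset.mem_image, Finset.mem_filter, Finset.mem_univ, true_and, Finset.mem_range]
    constructor
    · rintro ⟨a, ha, rfl⟩
      exact ha
    · intro hx
      exact ⟨⟨x, by omega⟩, hx, rfl⟩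
  rw [← Finset.card_image_of_injective _ Fin.val_injective, h1, Finset.card_range]

theorem band_regular (n d : ℕ) (h : d ≤ n) : Regular d (band n d) := by
  refine ⟨fun i => ?_, fun j => ?_⟩
  · have : NeZero n := ⟨by have := i.2; omega⟩
    refine Eq.trans ?_ (card_lt n d h)
    refine Finset.card_nbij' (fun w => w.2 - w.1) (fun k => (i, k + i)) ?_ ?_ ?_ ?_
    · intro w hw
      have hw' := Finset.mem_filter.1 hw
      simpa using (mem_band n d w).1 hw'.1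
    · intro k hk
      have hk' := (Finset.mem_filter.1 hk).2
      refine Finset.mem_coe.2 (Finset.mem_filter.2 ⟨(mem_band n d _).2 ?_, rfl⟩)
      simpa using hk'
    · intro w hw
      have hw' := (Finset.mem_filter.1 hw).2
      refine Prod.ext hw'.symm ?_
      simp [← hw']
    · intro k hk
      simp
  · have : NeZero n := ⟨by have := j.2; omega⟩
    refine Eq.trans ?_ (card_lt n d h)
    refine Finset.card_nbij' (fun w => w.2 - w.1) (fun k => (j - k, j)) ?_ ?_ ?_ ?_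
    · intro w hw
      have hw' := Finset.mem_filter.1 hw
      simpa using (mem_band n d w).1 hw'.1
    · intro k hk
      have hk' := (Finset.mem_filter.1 hk).2
      refine Finset.mem_coe.2 (Finset.mem_filter.2 ⟨(mem_band n d _).2 ?_, rfl⟩)
      simpa using hk'
    · intro w hw
      have hw' := (Finset.mem_filter.1 hw).2
      refine Prod.ext ?_ hw'.symm
      simp [← hw']
    · intro k hk
      simp

theorem data (n m : ℕ) (Ω : Finset (Fin n × Fin n)) (hm : 1 ≤ m) (i j : Fin n) :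
    ((i, j) ∉ Ω → rad m Ω i j = 0) ∧
    ((i, j) ∈ Ω → ∃ q : ℕ, q.Prime ∧ q ≤ 64 * n ^ 4 ∧ 0 < rad m Ω i j ∧
      minpoly ℚ (rad m Ω i j) = Polynomial.X ^ m - Polynomial.C (q : ℚ)) := by
  refine ⟨fun h => by simp [rad, h], fun h => ?_⟩
  refine ⟨Nat.nth Nat.Prime ((i : ℕ) * n + j), Nat.prime_nth_prime _, ?_, ?_, ?_⟩
  · refine le_trans (Pool.Agent.W989.RG.nth_prime_le _) ?_
    have h1 : (i : ℕ) * n + j + 1 ≤ n * n := by
      have hi := i.2
      have hj := j.2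
      calc (i : ℕ) * n + j + 1 ≤ (i : ℕ) * n + n := by omega
        _ = ((i : ℕ) + 1) * n := by ring
        _ ≤ n * n := Nat.mul_le_mul_right _ hi
    calc 64 * ((i : ℕ) * n + j + 1) ^ 2 ≤ 64 * (n * n) ^ 2 := by gcongr
      _ = 64 * n ^ 4 := by ring
  · have h2 := (Nat.prime_nth_prime ((i : ℕ) * n + j)).pos
    have h3 : (0 : ℝ) < (Nat.nth Nat.Prime ((i : ℕ) * n + j) : ℝ) := by exact_mod_cast h2
    simp only [rad, Matrix.of_apply, h, if_true]
    positivity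
  · simp only [rad, Matrix.of_apply, h, if_true]
    exact Pool.Agent.W989.RG.minpoly_root m _ hm (Nat.prime_nth_prime _)

theorem sp_rad_le (n m : ℕ) (Ω : Finset (Fin n × Fin n)) : sp (rad m Ω) ≤ Ω.card := by
  unfold sp
  rw [← Set.ncard_coe_finset]
  refine Set.ncard_le_ncard ?_ (Finset.finite_toSet Ω)
  intro w hw
  by_contra h0
  exact hw (by simp [rad] at h0 ⊢; simp [h0])

theorem valiant (ε δ δ' : ℝ) (hε2 : ε < 1 / 2) (hδ : 0 < δ) (hδδ : δ < δ')
    (hδ1 : δ' ≤ 1) : ∃ κ : ℕ, ∀ᶠ n : ℕ in atTop,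
      (sp (rad (n ^ κ) (band n ⌈(n : ℝ) ^ δ'⌉₊)) : ℝ) ≤ 2 * (n : ℝ) ^ (1 + δ') ∧
      ∀ (K : Type) [Field K] (φ : ℝ →+* K),
        Rigid (ε * n) ((n : ℝ) ^ (1 + δ)) ((rad (n ^ κ) (band n ⌈(n : ℝ) ^ δ'⌉₊)).map φ) := by
  have hc : 0 < (1 - 2 * ε) / 2 := by linarith
  obtain ⟨κ, hκ⟩ := regular ε ((1 - 2 * ε) / 2) (by linarith)
  refine ⟨κ, ?_⟩
  have hlim : Tendsto (fun n : ℕ => (n : ℝ) ^ (δ' - δ)) atTop atTop :=
    (tendsto_rpow_atTop (by linarith)).comp tendsto_natCast_atTop_atTop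
  filter_upwards [eventually_ge_atTop 2, hlim.eventually_ge_atTop (1 / ((1 - 2 * ε) / 2))]
    with n hn hlarge
  have hn1 : (1 : ℝ) ≤ n := by exact_mod_cast (by omega : 1 ≤ n)
  have hn0 : (0 : ℝ) < n := by linarith
  have hd1 : 1 ≤ (n : ℝ) ^ δ' := Real.one_le_rpow hn1 (by linarith)
  have hdn : ⌈(n : ℝ) ^ δ'⌉₊ ≤ n := by
    rw [Nat.ceil_le]
    calc (n : ℝ) ^ δ' ≤ (n : ℝ) ^ (1 : ℝ) := Real.rpow_le_rpow_of_exponent_le hn1 hδ1
      _ = n := Real.rpow_one _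
  have hdpos : 1 ≤ ⌈(n : ℝ) ^ δ'⌉₊ := by
    rw [Nat.one_le_ceil_iff]
    linarith
  have hreg := band_regular n ⌈(n : ℝ) ^ δ'⌉₊ hdn
  refine ⟨?_, fun K _ φ => ?_⟩
  · have h1 : (sp (rad (n ^ κ) (band n ⌈(n : ℝ) ^ δ'⌉₊)) : ℝ) ≤ n * (⌈(n : ℝ) ^ δ'⌉₊ : ℝ) := by
      have := sp_rad_le n (n ^ κ) (band n ⌈(n : ℝ) ^ δ'⌉₊)
      rw [card_regular _ _ hreg] at this
      exact_mod_cast this
    refine le_trans h1 ?_
    have h2 : (⌈(n : ℝ) ^ δ'⌉₊ : ℝ) ≤ (n : ℝ) ^ δ' + 1 := (Nat.ceil_lt_add_one (by positivity)).le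
    rw [Real.rpow_add hn0, Real.rpow_one]
    nlinarith
  · have h3 := hκ K φ n ⌈(n : ℝ) ^ δ'⌉₊ (band n ⌈(n : ℝ) ^ δ'⌉₊) hn hdpos hreg
    rintro ⟨R, S, hRS, hr, hs⟩
    refine h3 ⟨R, S, hRS, hr, le_trans hs ?_⟩
    have h4 : (n : ℝ) ^ δ ≤ (1 - 2 * ε) / 2 * (n : ℝ) ^ δ' := by
      have h5 : (n : ℝ) ^ δ' = (n : ℝ) ^ (δ' - δ) * (n : ℝ) ^ δ := by
        rw [← Real.rpow_add hn0]; ring_nf
      rw [h5, ← mul_assoc]
      have h6 : 1 ≤ (1 - 2 * ε) / 2 * (n : ℝ) ^ (δ' - δ) := by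
        rw [div_le_iff₀ hc] at hlarge
        linarith
      have h7 : 0 < (n : ℝ) ^ δ := by positivity
      nlinarith
    have h8 : (n : ℝ) ^ δ' ≤ (⌈(n : ℝ) ^ δ'⌉₊ : ℝ) := Nat.le_ceil _
    calc (n : ℝ) ^ (1 + δ) = n * (n : ℝ) ^ δ := by rw [Real.rpow_add hn0, Real.rpow_one]
      _ ≤ n * ((1 - 2 * ε) / 2 * (n : ℝ) ^ δ') := by gcongr
      _ ≤ n * ((1 - 2 * ε) / 2 * (⌈(n : ℝ) ^ δ'⌉₊ : ℝ)) := by gcongr
      _ = (1 - 2 * ε) / 2 * (n * (⌈(n : ℝ) ^ δ'⌉₊ : ℝ)) := by ring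

/-- **Matrices of radicals are rigid, for every support.** `K` is any field with a homomorphism
from the real numbers (for instance `ℝ` or `ℂ`).
(1) The entry of `rad m Ω` at a position in `Ω` is positive and its minimal polynomial is
`X ^ m - q` with a prime `q ≤ 64 n ^ 4`; the other entries are `0`.
(2) Every support `Ω`: if `r` rows and `r` columns never contain more than `v` positions of `Ω` and
`(3 log n + log m) (v + s) < |Ω| log m`, then the matrix is `(r, s)`-rigid.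
(3) If `2 ε + c < 1` then for a suitable constant `κ` and `m = n ^ κ` the matrix is
`(ε n, c n d)`-rigid for every `d`-regular support, every `d ≥ 1` and every `n ≥ 2`.
(4) If `ε ≤ 1` and `c < (1 - ε) ^ 2` then for a suitable constant `κ` and `m = n ^ κ` the matrix with full
support is `(ε n, c n ^ 2)`-rigid for every `n ≥ 2`.
(5) Valiant's parameters: if `ε < 1 / 2` and `0 < δ < δ' ≤ 1`, then for a suitable constant `κ`,
`m = n ^ κ` and all large `n` the band matrix of width `⌈n ^ δ'⌉` has at most `2 n ^ (1 + δ')`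
nonzero entries and is `(ε n, n ^ (1 + δ))`-rigid. -/
theorem result :
    (∀ (n m : ℕ) (Ω : Finset (Fin n × Fin n)), 1 ≤ m → ∀ i j : Fin n,
      ((i, j) ∉ Ω → rad m Ω i j = 0) ∧
      ((i, j) ∈ Ω → ∃ q : ℕ, q.Prime ∧ q ≤ 64 * n ^ 4 ∧ 0 < rad m Ω i j ∧
        minpoly ℚ (rad m Ω i j) = Polynomial.X ^ m - Polynomial.C (q : ℚ))) ∧
    (∀ (K : Type) [Field K] (φ : ℝ →+* K) (n m r s v : ℕ) (Ω : Finset (Fin n × Fin n)),
      (∀ I J : Finset (Fin n), I.card ≤ r → J.card ≤ r →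
        (Ω.filter (fun w => w.1 ∈ I ∨ w.2 ∈ J)).card ≤ v) →
      (3 * Real.log n + Real.log m) * ((v : ℝ) + s) < Real.log m * Ω.card →
      Rigid r s ((rad m Ω).map φ)) ∧
    (∀ ε c : ℝ, 2 * ε + c < 1 →
      ∃ κ : ℕ, ∀ (K : Type) [Field K] (φ : ℝ →+* K) (n d : ℕ) (Ω : Finset (Fin n × Fin n)),
        2 ≤ n → 1 ≤ d → Regular d Ω → Rigid (ε * n) (c * (n * d)) ((rad (n ^ κ) Ω).map φ)) ∧
    (∀ ε c : ℝ, ε ≤ 1 → c < (1 - ε) ^ 2 →
      ∃ κ : ℕ, ∀ (K : Type) [Field K] (φ : ℝ →+* K) (n : ℕ), 2 ≤ n →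
        Rigid (ε * n) (c * (n : ℝ) ^ 2)
          ((rad (n ^ κ) (univ : Finset (Fin n × Fin n))).map φ)) ∧
    (∀ ε δ δ' : ℝ, ε < 1 / 2 → 0 < δ → δ < δ' → δ' ≤ 1 →
      ∃ κ : ℕ, ∀ᶠ n : ℕ in atTop,
        (sp (rad (n ^ κ) (band n ⌈(n : ℝ) ^ δ'⌉₊)) : ℝ) ≤ 2 * (n : ℝ) ^ (1 + δ') ∧
        ∀ (K : Type) [Field K] (φ : ℝ →+* K),
          Rigid (ε * n) ((n : ℝ) ^ (1 + δ)) ((rad (n ^ κ) (band n ⌈(n : ℝ) ^ δ'⌉₊)).map φ)) :=
  ⟨data, general, regular, dense, valiant⟩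

end Pool.Agent.Results.MP_0775d3_lc.SparseRadicals
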