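import Pool.Agent.W989.TN.Final
import Pool.Agent.W211.TN.Toe
import Pool.Agent.W336.TN.Dia
import Pool.Agent.W460.TN.NUM
import Pool.Agent.W479.TN.PRI
import Pool.Agent.W538.TN.Num
import Pool.Agent.W579.TN.Real
import Pool.Agent.W611.TN.MS
import Pool.Agent.W944.TN.Dsp

set_option autoImplicit false

/-!
# Toeplitz-like matrices are not rigid

`N ^ δ` changes in every row and in every column bring the rank of every Toeplitz, Hankel and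
Fourier matrix down to `N ^ (1 - c / (log log N) ^ 3)`; the same for matrices of displacement rank
`α`, up to factors `α`. Hence matrices of displacement rank at most `N ^ (c / (log log N) ^ 3)` are
not rigid with Valiant's parameters. The Kronecker product theorem of `KroneckerNotRigid` is
applied to the Fourier transform of `∏ ZMod p`, `p` the primes up to `O(log N)`.
-/

namespace Pool.Agent.Results.MP_0775d3_lc.ToeplitzLikeNotRigid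

open Pool.Agent.W989.TN

/-- **Toeplitz-like matrices are not rigid.** `Spr ρ r T`: `T` is the sum of a matrix with at most
`ρ` nonzero entries in every row and in every column, and of a matrix of rank at most `r`;
`disp M`: the matrix with entries `M (i, j) - M (i - 1, j - 1)` (the subtracted entry is `0` if
`i = 0` or `j = 0`), its rank is the displacement rank of `M`.
(1) Matrices `f (x - y)`, `x, y ∈ ∏ ZMod (n i)`, `n i ≤ d`, with an explicit exponent.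
(2) Toeplitz and Hankel matrices over `ℂ` and over `ℝ`, and the matrices `θ ^ (i j)`.
(3) Matrices of displacement rank at most `α`, over `ℂ` and over `ℝ`.
(4) Matrices of displacement rank at most `N ^ (c / (log log N) ^ 3)` are not
`(ε N, N ^ (1 + δ))`-rigid. -/
theorem result :
    (∀ (ι : Type) [Fintype ι] [DecidableEq ι] (n : ι → ℕ) [∀ i, NeZero (n i)] (d N : ℕ) (δ : ℝ),
      2 ≤ d → (∀ i, n i ≤ d) → N = ∏ i, n i → 0 < δ → δ ≤ 1 →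
      (∀ f : (∀ i, ZMod (n i)) → ℂ,
        Spr ((N : ℝ) ^ δ) (128 * Real.logb 2 d * (N : ℝ) ^ (1 - (δ / 2) ^ 2 /
            (2 ^ 20 * Real.logb 2 (8 / δ) ^ 2 * Real.logb 2 d ^ 3)))
          (Matrix.of fun x y : (∀ i, ZMod (n i)) => f (x - y))) ∧
      (∀ f : (∀ i, ZMod (n i)) → ℝ,
        Spr ((N : ℝ) ^ δ) (256 * Real.logb 2 d * (N : ℝ) ^ (1 - (δ / 2) ^ 2 /
            (2 ^ 20 * Real.logb 2 (8 / δ) ^ 2 * Real.logb 2 d ^ 3)))
          (Matrix.of fun x y : (∀ i, ZMod (n i)) => f (x - y)))) ∧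
    (∀ δ : ℝ, 0 < δ → δ ≤ 1 → ∃ c : ℝ, 0 < c ∧ ∃ N₀ : ℕ, ∀ N : ℕ, N₀ ≤ N →
      (∀ f : ℤ → ℂ, Spr ((N : ℝ) ^ δ) ((N : ℝ) ^ (1 - c / Real.log (Real.log N) ^ 3))
        (toeplitz f N)) ∧
      (∀ f : ℤ → ℝ, Spr ((N : ℝ) ^ δ) ((N : ℝ) ^ (1 - c / Real.log (Real.log N) ^ 3))
        (toeplitz f N)) ∧
      (∀ f : ℕ → ℂ, Spr ((N : ℝ) ^ δ) ((N : ℝ) ^ (1 - c / Real.log (Real.log N) ^ 3))
        (hankel f N)) ∧
      (∀ f : ℕ → ℝ, Spr ((N : ℝ) ^ δ) ((N : ℝ) ^ (1 - c / Real.log (Real.log N) ^ 3))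
        (hankel f N)) ∧
      (∀ θ : ℂ, θ ≠ 0 → Spr ((N : ℝ) ^ δ) ((N : ℝ) ^ (1 - c / Real.log (Real.log N) ^ 3))
        (Matrix.of fun i j : Fin N => θ ^ ((i : ℕ) * (j : ℕ))))) ∧
    (∀ δ : ℝ, 0 < δ → δ ≤ 1 → ∃ c : ℝ, 0 < c ∧ ∃ N₀ : ℕ, ∀ N : ℕ, N₀ ≤ N →
      (∀ (α : ℕ) (M : Matrix (Fin N) (Fin N) ℂ), (disp M).rank ≤ α →
        Spr (α * (N : ℝ) ^ δ) (α * (N : ℝ) ^ (1 - c / Real.log (Real.log N) ^ 3)) M) ∧
      (∀ (α : ℕ) (M : Matrix (Fin N) (Fin N) ℝ), (disp M).rank ≤ α →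
        Spr (α * (N : ℝ) ^ δ) (α * (N : ℝ) ^ (1 - c / Real.log (Real.log N) ^ 3)) M)) ∧
    (∀ ε δ : ℝ, 0 < ε → 0 < δ → ∃ c : ℝ, 0 < c ∧ ∃ N₀ : ℕ, ∀ N : ℕ, N₀ ≤ N →
      (∀ M : Matrix (Fin N) (Fin N) ℂ,
        ((disp M).rank : ℝ) ≤ (N : ℝ) ^ (c / Real.log (Real.log N) ^ 3) →
        ∃ R S : Matrix (Fin N) (Fin N) ℂ, M = R + S ∧ (R.rank : ℝ) ≤ ε * N ∧
          ({p : Fin N × Fin N | S p.1 p.2 ≠ 0}.ncard : ℝ) ≤ (N : ℝ) ^ (1 + δ)) ∧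
      (∀ M : Matrix (Fin N) (Fin N) ℝ,
        ((disp M).rank : ℝ) ≤ (N : ℝ) ^ (c / Real.log (Real.log N) ^ 3) →
        ∃ R S : Matrix (Fin N) (Fin N) ℝ, M = R + S ∧ (R.rank : ℝ) ≤ ε * N ∧
          ({p : Fin N × Fin N | S p.1 p.2 ≠ 0}.ncard : ℝ) ≤ (N : ℝ) ^ (1 + δ))) :=
  final Pool.Agent.W336.TN.Dia.t_DIA Pool.Agent.W611.TN.MS.t_MUL Pool.Agent.W611.TN.MS.t_SUB Pool.Agent.W211.TN.t_TOE Pool.Agent.W479.TN.t_PRI Pool.Agent.W460.TN.t_NUM Pool.Agent.W579.TN.t_REAL Pool.Agent.W611.TN.MS.t_SCA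
    Pool.Agent.W944.TN.t_DSP Pool.Agent.W944.TN.t_DSPR Pool.Agent.W538.TN.t_NUM2 Pool.Agent.W538.TN.t_NUM3

end Pool.Agent.Results.MP_0775d3_lc.ToeplitzLikeNotRigid
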